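import Pool.Agent.H12.Asp5

set_option autoImplicit false
open Set Filter Topology

namespace Pool.Agent.Results.MP_17c4bf_an.Counter

section
variable (E : Type) [AddCommGroup E] [Module ℝ E] [TopologicalSpace E]

/-- `E` is a real Hausdorff locally convex topological vector space. -/
def IsLCS : Prop :=
  IsTopologicalAddGroup E ∧ ContinuousSMul ℝ E ∧ LocallyConvexSpace ℝ E ∧ T2Space E

/-- Gateaux differentiability at `x`. -/
def GateauxAt (f : E → ℝ) (x : E) : Prop :=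
  ∃ φ : E →L[ℝ] ℝ, ∀ h : E,
    Tendsto (fun t : ℝ => (f (x + t • h) - f x) / t) (𝓝[≠] 0) (𝓝 (φ h))

/-- Frechet differentiability at `x`: the limit is uniform on every bounded set. -/
def FrechetAt (f : E → ℝ) (x : E) : Prop :=
  ∃ φ : E →L[ℝ] ℝ, ∀ B : Set E, Bornology.IsVonNBounded ℝ B →
    TendstoUniformlyOn (fun (t : ℝ) (h : E) => (f (x + t • h) - f x) / t) φ (𝓝[≠] 0) B

/-- Asplund locally convex space. -/
def Asplund : Prop :=
  ∀ D : Set E, D.Nonempty → IsOpen D → Convex ℝ D → ∀ f : E → ℝ, ConvexOn ℝ D f →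
    ContinuousOn f D → ∃ G ⊆ D, IsGδ G ∧ D ⊆ closure G ∧ ∀ x ∈ G, FrechetAt E f x

/-- weak Asplund locally convex space. -/
def WeakAsplund : Prop :=
  ∀ D : Set E, D.Nonempty → IsOpen D → Convex ℝ D → ∀ f : E → ℝ, ConvexOn ℝ D f →
    ContinuousOn f D → ∃ G ⊆ D, IsGδ G ∧ D ⊆ closure G ∧ ∀ x ∈ G, GateauxAt E f x

end

theorem result : ∃ (E F : Type) (_ : AddCommGroup E) (_ : Module ℝ E) (_ : TopologicalSpace E)
    (_ : AddCommGroup F) (_ : Module ℝ F) (_ : TopologicalSpace F),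
    IsLCS E ∧ IsLCS F ∧ Asplund (E × F) ∧ WeakAsplund (E × F) ∧ ¬ Asplund E ∧ ¬ WeakAsplund E := by
  have key : ∀ (E : Type) [AddCommGroup E] [Module ℝ E] [TopologicalSpace E] [ContinuousSMul ℝ E],
      Asplund E → WeakAsplund E := by
    intro E _ _ _ _ h D h1 h2 h3 f h4 h5
    obtain ⟨G, g1, g2, g3, g4⟩ := h D h1 h2 h3 f h4 h5
    refine ⟨G, g1, g2, g3, fun x hx => (g4 x hx).imp fun φ hφ v => ?_⟩
    exact (hφ {v} (Bornology.isVonNBounded_singleton v)).tendsto_at (mem_singleton v)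
  obtain ⟨A, hA⟩ := Pool.Agent.H12.Asp.exists_bern
  have h1 : Asplund (Pool.Agent.H12.Asp.EE A × Pool.Agent.H12.Asp.FF) :=
    fun D h1 h2 _ f h4 h5 => Pool.Agent.H12.Asp.asp_prod hA h1 h2 h4 h5
  have h2 : ¬ WeakAsplund (Pool.Agent.H12.Asp.EE A) := by
    intro h
    obtain ⟨G, -, g2, g3, g4⟩ := h univ univ_nonempty isOpen_univ convex_univ
      (fun x => Pool.Agent.H12.Asp.supf x.1.1)
      ⟨convex_univ, fun x _ y _ a b ha hb _ => Pool.Agent.H12.Asp.supf_conv _ _ ha hb⟩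
      (Pool.Agent.H12.Asp.continuous_supf.comp (by fun_prop)).continuousOn
    obtain ⟨x, hx, v, hv⟩ := Pool.Agent.H12.Asp.not_wa hA g2 fun x => g3 (mem_univ x)
    obtain ⟨φ, hφ⟩ := g4 x hx
    exact hv _ (hφ v)
  exact ⟨Pool.Agent.H12.Asp.EE A, Pool.Agent.H12.Asp.FF, inferInstance, inferInstance,
    inferInstance, inferInstance, inferInstance, inferInstance,
    ⟨inferInstance, inferInstance, inferInstance, inferInstance⟩,
    ⟨inferInstance, inferInstance, inferInstance, inferInstance⟩,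
    h1, key _ h1, fun h => h2 (key _ h), h2⟩

end Pool.Agent.Results.MP_17c4bf_an.Counter
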